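import Mathlib
import Pool.Agent.U642.CFU2
import Pool.Agent.U642.CFU3

/-!
# A monoid with context-free word problem whose group of units is not finitely generated

The monoid is `⟨a, b, c | (a bⁿ c)² = 1 (n ≥ 0)⟩`. Its group of units is the free product of the
infinitely many groups of order two generated by the elements `a bⁿ c`.
-/

set_option autoImplicit false

namespace Pool.Agent.Results.MP_435286_al.UnitsNotFinitelyGenerated

/-- The word problem of the monoid `M` with respect to the (finite) set of the elements `f x`: the
language of the words `u # vʳᵉᵛ` where the words `u`, `v` represent the same element of `M`. The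
letter `some x` stands for `f x` and `none` is the symbol `#`. -/
def wordProblem {M α : Type} [Monoid M] (f : α → M) : Language (Option α) :=
  {w | ∃ u v : List α, (u.map f).prod = (v.map f).prod ∧
    w = u.map some ++ [none] ++ v.reverse.map some}

/-- `M` has context-free word problem: for some finite generating set, enumerated without
repetitions by `f`, the word problem is a context-free language. -/
def HasContextFreeWordProblem (M : Type) [Monoid M] : Prop :=
  ∃ (α : Type) (_ : Fintype α) (f : α → M), Function.Injective f ∧
    Submonoid.closure (Set.range f) = ⊤ ∧ (wordProblem f).IsContextFree

open Pool.Agent.U642.CFU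

/-- There is a monoid with context-free word problem whose group of units is not finitely
generated. -/
theorem result : ∃ (M : Type) (_ : Monoid M), HasContextFreeWordProblem M ∧ ¬ Group.FG Mˣ := by
  refine ⟨Mo, inferInstance, ⟨L3, inferInstance, gen, ?_, ?_, wp_cf⟩, units_not_fg⟩
  · intro x y h
    have h1 : run [x] [] = run [y] [] := by
      apply run_eq_of_val _ valid_nil
      simpa [val] using h
    rw [run_irr, run_irr] at h1
    · simpa using h1
    · intro p n t h2
      have := congrArg List.length h2
      simp [pat] at this
      omega
    · intro p n t h2
      have := congrArg List.length h2
      simp [pat] at this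
      omega
  · rw [eq_top_iff]
    intro x _
    obtain ⟨w, rfl⟩ := val_surj x
    refine Submonoid.list_prod_mem _ ?_
    intro y hy
    obtain ⟨z, -, rfl⟩ := List.mem_map.1 hy
    exact Submonoid.subset_closure ⟨z, rfl⟩

end Pool.Agent.Results.MP_435286_al.UnitsNotFinitelyGenerated
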